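import Pool.Agent.TH54.BU.BurnDef
import Pool.Agent.TH54.BU.App2

/-!
# The star class and the sharp class of words in several variables (helper452)
-/

set_option autoImplicit false

namespace Pool.Agent.H452.SHP

open Pool.Agent.TH54.BU

/-- the word `(x₀ v x₀ v⁻¹) ^ p` where `v = x₁ x₂ ⋯ xₙ` -/
def word (n p : ℕ) : FreeGroup (Fin (n + 1)) :=
  (FreeGroup.of 0 * (List.ofFn fun i : Fin n => FreeGroup.of i.succ).prod * FreeGroup.of 0 *
    ((List.ofFn fun i : Fin n => FreeGroup.of i.succ).prod)⁻¹) ^ p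

theorem lift_word {n p : ℕ} {G : Type*} [Group G] (x : Fin (n + 1) → G) :
    FreeGroup.lift x (word n p) =
      (x 0 * (List.ofFn fun i : Fin n => x i.succ).prod * x 0 *
        ((List.ofFn fun i : Fin n => x i.succ).prod)⁻¹) ^ p := by
  have h : FreeGroup.lift x (List.ofFn fun i : Fin n => FreeGroup.of i.succ).prod =
      (List.ofFn fun i : Fin n => x i.succ).prod := by
    rw [map_list_prod, List.map_ofFn]
    congr 2
    funext i
    simp
  rw [word, map_pow, map_mul, map_mul, map_mul, map_inv, h, FreeGroup.lift_apply_of]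

/-- the group and its properties -/
theorem main {p : ℕ} (hp : p.Prime) (hp3 : 3 ≤ p) (h : Burn2 p)
    (hi : Infinite (FreeGroup (Fin 2) ⧸ powSub (FreeGroup (Fin 2)) p)) :
    ∃ (G : Type) (_ : Group G) (Z : Subgroup G) (u v : G), Infinite G ∧
      Subgroup.closure {u, v} = ⊤ ∧ Z ≤ Subgroup.center G ∧ Nat.card Z = p ∧
      (∀ g : G, g ^ p ∈ Z) ∧
      (∀ x : G, x ∉ Z → {y : G | (x * y * x * y⁻¹) ^ p ≠ 1}.Finite) ∧
      {s : G | (s * s) ^ p ≠ 1}.Infinite := by
  obtain ⟨A, _, z, φ, hφ, hker, hz, hzo, hpow, ⟨a, k, hak, hpk⟩, hfin⟩ := h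
  have hN : (Subgroup.zpowers (z ^ p)).Normal := ap_normal hz p
  have hp0 : (p : ℤ) ≠ 0 := by exact_mod_cast hp.ne_zero
  have hpp : Prime (p : ℤ) := Nat.prime_iff_prime_int.1 hp
  haveI : Fact p.Prime := ⟨hp⟩
  have hle : Subgroup.zpowers (z ^ p) ≤ φ.ker := by
    rw [hker, Subgroup.zpowers_le]
    exact Subgroup.pow_mem _ (Subgroup.mem_zpowers z) p
  let G := A ⧸ Subgroup.zpowers (z ^ p)
  let ψ : G →* FreeGroup (Fin 2) ⧸ powSub (FreeGroup (Fin 2)) p :=
    QuotientGroup.lift _ φ hle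
  have hψ : ∀ a : A, ψ (QuotientGroup.mk a) = φ a := fun a => rfl
  have hψs : Function.Surjective ψ := by
    intro q
    obtain ⟨a, rfl⟩ := hφ q
    exact ⟨QuotientGroup.mk a, rfl⟩
  have hmk : ∀ (a : A), (QuotientGroup.mk a : G) = 1 ↔ ∃ j : ℤ, a = z ^ (p * j) := by
    intro a
    rw [QuotientGroup.eq_one_iff]
    constructor
    · rintro ⟨j, hj⟩
      exact ⟨j, by rw [← hj, zpow_mul, zpow_natCast]⟩
    · rintro ⟨j, hj⟩
      exact ⟨j, by rw [hj, zpow_mul, zpow_natCast]⟩
  -- the central subgroup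
  let ζ : G := QuotientGroup.mk z
  have hζz : ∀ j : ℤ, ζ ^ j = QuotientGroup.mk (z ^ j) := fun j => rfl
  have hζo : orderOf ζ = p := by
    apply orderOf_eq_prime
    · change (QuotientGroup.mk (z ^ p) : G) = 1
      rw [hmk]
      exact ⟨1, by rw [mul_one, zpow_natCast]⟩
    · intro h1
      have h2 : (QuotientGroup.mk z : G) = 1 := h1
      rw [hmk] at h2
      obtain ⟨j, hj⟩ := h2
      have h3 : (1 : ℤ) = p * j := ap_zpow_inj hzo (by rw [zpow_one]; exact hj)
      have h4 : (p : ℤ) ∣ 1 := ⟨j, h3⟩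
      exact hpp.not_dvd_one h4
  have hψker : ψ.ker = Subgroup.zpowers ζ := by
    ext x
    obtain ⟨b, rfl⟩ := QuotientGroup.mk_surjective x
    rw [MonoidHom.mem_ker]
    change φ b = 1 ↔ _
    rw [← MonoidHom.mem_ker, hker]
    constructor
    · rintro ⟨j, hj⟩
      exact ⟨j, by simp only at hj ⊢; rw [hζz, hj]⟩
    · rintro ⟨j, hj⟩
      simp only at hj
      rw [hζz, QuotientGroup.eq] at hj
      obtain ⟨i, hi⟩ := hj
      simp only at hi
      have : b = z ^ j * (z ^ p) ^ i := by rw [hi]; group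
      rw [this]
      exact Subgroup.mul_mem _ (Subgroup.zpow_mem _ (Subgroup.mem_zpowers z) _)
        (Subgroup.zpow_mem _ (Subgroup.pow_mem _ (Subgroup.mem_zpowers z) _) _)
  have hcard : Nat.card ψ.ker = p := by
    rw [hψker, Nat.card_zpowers, hζo]
  have hcen : ψ.ker ≤ Subgroup.center G := by
    rw [hψker, Subgroup.zpowers_le, Subgroup.mem_center_iff]
    intro g
    obtain ⟨b, rfl⟩ := QuotientGroup.mk_surjective g
    change (QuotientGroup.mk (b * z) : G) = QuotientGroup.mk (z * b)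
    rw [hz b]
  have hpowZ : ∀ g : G, g ^ p ∈ ψ.ker := by
    intro g
    obtain ⟨b, rfl⟩ := QuotientGroup.mk_surjective g
    obtain ⟨j, hj⟩ := hpow b
    rw [hψker]
    refine ⟨j, ?_⟩
    simp only
    rw [hζz, ← hj]
    rfl
  -- the fibres are finite
  have hkfin : (ψ.ker : Set G).Finite := by
    have : Finite ψ.ker := Nat.finite_of_card_ne_zero (by rw [hcard]; exact hp.ne_zero)
    exact Set.toFinite _
  have hfib : ∀ q, {x : G | ψ x = q}.Finite := by
    intro q
    obtain ⟨x0, rfl⟩ := hψs q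
    refine (hkfin.image fun t => x0 * t).subset ?_
    intro x hx
    refine ⟨x0⁻¹ * x, ?_, by simp⟩
    change ψ (x0⁻¹ * x) = 1
    have hx' : ψ x = ψ x0 := hx
    rw [map_mul, map_inv, hx', inv_mul_cancel]
  -- elements of the bad set
  have hgood : ∀ x y : G, ψ x ≠ 1 →
      ψ y ∉ {Y | ∃ a b : A, φ a = ψ x ∧ φ b = Y ∧ ∀ j : ℤ, (a * b * a * b⁻¹) ^ p ≠ z ^ (p * j)} →
      (x * y * x * y⁻¹) ^ p = 1 := by
    intro x y hx hy
    obtain ⟨b, rfl⟩ := QuotientGroup.mk_surjective x
    obtain ⟨c, rfl⟩ := QuotientGroup.mk_surjective y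
    by_contra hc
    apply hy
    refine ⟨b, c, rfl, rfl, ?_⟩
    intro j hj
    apply hc
    have h1 : ((QuotientGroup.mk b : G) * QuotientGroup.mk c * QuotientGroup.mk b *
        (QuotientGroup.mk c)⁻¹) ^ p = QuotientGroup.mk ((b * c * b * c⁻¹) ^ p) := rfl
    rw [h1, hmk]
    exact ⟨j, hj⟩
  have hGinf : Infinite G := Infinite.of_surjective ψ hψs
  have hs : ((QuotientGroup.mk a : G) * QuotientGroup.mk a) ^ p ≠ 1 := by
    have h1 : ((QuotientGroup.mk a : G) * QuotientGroup.mk a) ^ p =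
        QuotientGroup.mk ((a * a) ^ p) := rfl
    rw [h1, Ne, hmk]
    rintro ⟨j, hj⟩
    have h2 : (a * a) ^ p = z ^ (2 * k) := by
      rw [(Commute.refl a).mul_pow, hak, ← zpow_add, two_mul]
    rw [h2] at hj
    have h3 := ap_zpow_inj hzo hj
    have h4 : (p : ℤ) ∣ 2 * k := ⟨j, h3⟩
    rcases hpp.dvd_or_dvd h4 with h5 | h5
    · have := Int.le_of_dvd (by norm_num) h5
      have : (3 : ℤ) ≤ p := by exact_mod_cast hp3
      omega
    · exact hpk h5
  have hX : φ a ≠ 1 := by
    intro h1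
    have h2 : a ∈ Subgroup.zpowers z := by rw [← hker]; exact h1
    obtain ⟨i, hi⟩ := h2
    simp only at hi
    rw [← hi, ← zpow_natCast, ← zpow_mul] at hak
    have := ap_zpow_inj hzo hak
    exact hpk ⟨i, by rw [← this, mul_comm]⟩
  -- generators
  obtain ⟨u, hu⟩ := hψs (QuotientGroup.mk (FreeGroup.of 0))
  obtain ⟨v, hv⟩ := hψs (QuotientGroup.mk (FreeGroup.of 1))
  let H : Subgroup G := Subgroup.closure {u, v}
  have hmap : H.map ψ = ⊤ := by
    rw [MonoidHom.map_closure, Set.image_pair, hu, hv]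
    have h1 : Subgroup.closure
        {(FreeGroup.of 0 : FreeGroup (Fin 2)), FreeGroup.of 1} = ⊤ := by
      rw [eq_top_iff, ← FreeGroup.closure_range_of, Subgroup.closure_le]
      rintro _ ⟨i, rfl⟩
      apply Subgroup.subset_closure
      fin_cases i
      · left; rfl
      · right; rfl
    have h2 := congrArg (Subgroup.map (QuotientGroup.mk' (powSub (FreeGroup (Fin 2)) p))) h1
    rw [MonoidHom.map_closure, Set.image_pair,
      Subgroup.map_top_of_surjective _ (QuotientGroup.mk'_surjective _)] at h2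
    exact h2
  have hHZ : ∀ g : G, ∃ y ∈ H, ∃ t ∈ ψ.ker, g = y * t := by
    intro g
    have h1 : ψ g ∈ H.map ψ := by rw [hmap]; trivial
    obtain ⟨y, hy, hyg⟩ := h1
    refine ⟨y, hy, y⁻¹ * g, ?_, by simp⟩
    rw [MonoidHom.mem_ker, map_mul, map_inv, hyg, inv_mul_cancel]
  have hZH : ψ.ker ≤ H := by
    obtain ⟨y, hy, t, ht, hyt⟩ := hHZ (QuotientGroup.mk a * QuotientGroup.mk a)
    have hc : Commute y t := ((Subgroup.mem_center_iff.1 (hcen ht)) y)
    have htp : t ^ p = 1 := by
      have h1 : (⟨t, ht⟩ : ψ.ker) ^ Nat.card ψ.ker = 1 := pow_card_eq_one'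
      rw [hcard] at h1
      exact congrArg Subtype.val h1
    have h1 : y ^ p ≠ 1 := by
      intro h1
      apply hs
      rw [hyt, hc.mul_pow, h1, htp, mul_one]
    have h2 : y ^ p ∈ ψ.ker := hpowZ y
    have h3 : Subgroup.zpowers (y ^ p) = ψ.ker := by
      have hle : Subgroup.zpowers (y ^ p) ≤ ψ.ker := by rwa [Subgroup.zpowers_le]
      have : Finite ψ.ker := Nat.finite_of_card_ne_zero (by rw [hcard]; exact hp.ne_zero)
      apply Subgroup.eq_of_le_of_card_ge hle
      rw [hcard, Nat.card_zpowers]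
      have h4 : orderOf (y ^ p) ∣ p := by
        have h5 : (⟨y ^ p, h2⟩ : ψ.ker) ^ Nat.card ψ.ker = 1 := pow_card_eq_one'
        rw [hcard] at h5
        exact orderOf_dvd_of_pow_eq_one (congrArg Subtype.val h5)
      rcases (Nat.dvd_prime hp).1 h4 with h5 | h5
      · exact absurd (orderOf_eq_one_iff.1 h5) h1
      · rw [h5]
    rw [← h3, Subgroup.zpowers_le]
    exact Subgroup.pow_mem _ hy _
  have hgen : H = ⊤ := by
    rw [eq_top_iff]
    intro g _
    obtain ⟨y, hy, t, ht, rfl⟩ := hHZ g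
    exact Subgroup.mul_mem _ hy (hZH ht)
  refine ⟨G, inferInstance, ψ.ker, u, v, hGinf, hgen, hcen, hcard, hpowZ, ?_, ?_⟩
  · intro x hx
    have hx1 : ψ x ≠ 1 := hx
    have h1 : {y : G | (x * y * x * y⁻¹) ^ p ≠ 1} ⊆
        ⋃ q ∈ {Y | ∃ a b : A, φ a = ψ x ∧ φ b = Y ∧
          ∀ j : ℤ, (a * b * a * b⁻¹) ^ p ≠ z ^ (p * j)}, {y : G | ψ y = q} := by
      intro y hy
      simp only [Set.mem_iUnion]
      by_contra hc
      push Not at hc
      apply hy
      apply hgood x y hx1
      intro hbad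
      exact hc (ψ y) hbad rfl
    exact ((hfin (ψ x) hx1).biUnion fun q _ => hfib q).subset h1
  · -- the centralizer of `φ a` is finite
    have hcent : {Y | Y * φ a = φ a * Y}.Finite := by
      refine (hfin (φ a) hX).subset ?_
      intro Y hY
      obtain ⟨b, rfl⟩ := hφ Y
      refine ⟨a, b, rfl, rfl, ?_⟩
      intro j hj
      have h1 : a⁻¹ * (b * a * b⁻¹) ∈ Subgroup.zpowers z := by
        rw [← hker, MonoidHom.mem_ker, map_mul, map_mul, map_mul, map_inv, map_inv]
        have hY' : φ b * φ a = φ a * φ b := hY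
        rw [hY']; group
      obtain ⟨i, hi⟩ := h1
      simp only at hi
      have h2 : a * b * a * b⁻¹ = (a * a) * z ^ i := by
        rw [hi]; group
      have h3 : Commute (a * a) (z ^ i) := by
        have : Commute a z := hz a
        exact (this.mul_left this).zpow_right i
      rw [h2, h3.mul_pow, (Commute.refl a).mul_pow, hak, ← zpow_add, ← zpow_natCast (z ^ i),
        ← zpow_mul, ← zpow_add] at hj
      have h4 := ap_zpow_inj hzo hj
      have h5 : (p : ℤ) ∣ 2 * k := ⟨j - i, by linarith⟩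
      rcases hpp.dvd_or_dvd h5 with h6 | h6
      · have := Int.le_of_dvd (by norm_num) h6
        have : (3 : ℤ) ≤ p := by exact_mod_cast hp3
        omega
      · exact hpk h6
    -- so the conjugacy class is infinite
    have hclass : {q | ∃ g, q = g * φ a * g⁻¹}.Infinite := by
      intro hf
      have hall : (Set.univ : Set (FreeGroup (Fin 2) ⧸ powSub (FreeGroup (Fin 2)) p)).Finite := by
        have h1 : (Set.univ : Set (FreeGroup (Fin 2) ⧸ powSub (FreeGroup (Fin 2)) p)) ⊆
            ⋃ q ∈ {q | ∃ g, q = g * φ a * g⁻¹}, {g | g * φ a * g⁻¹ = q} := by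
          intro g _
          simp only [Set.mem_iUnion]
          exact ⟨g * φ a * g⁻¹, ⟨g, rfl⟩, rfl⟩
        refine (hf.biUnion fun q hq => ?_).subset h1
        obtain ⟨g0, rfl⟩ := hq
        refine (hcent.image fun Y => g0 * Y).subset ?_
        intro g hg
        have hg' : g * φ a * g⁻¹ = g0 * φ a * g0⁻¹ := hg
        refine ⟨g0⁻¹ * g, ?_, by simp⟩
        change g0⁻¹ * g * φ a = φ a * (g0⁻¹ * g)
        have h2 : g * φ a = g0 * φ a * g0⁻¹ * g := by
          rw [← hg']; group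
        calc g0⁻¹ * g * φ a = g0⁻¹ * (g * φ a) := by rw [mul_assoc]
          _ = φ a * (g0⁻¹ * g) := by rw [h2]; group
      exact Set.infinite_univ hall
    intro hf
    apply hclass
    refine (hf.image ψ).subset ?_
    rintro _ ⟨g, rfl⟩
    obtain ⟨g, rfl⟩ := hψs g
    refine ⟨g * QuotientGroup.mk a * g⁻¹, ?_, ?_⟩
    · intro h6
      apply hs
      have h7 : g * QuotientGroup.mk a * g⁻¹ * (g * QuotientGroup.mk a * g⁻¹) =
          g * ((QuotientGroup.mk a : G) * QuotientGroup.mk a) * g⁻¹ := by group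
      rw [h7, conj_pow] at h6
      have h8 : g * ((QuotientGroup.mk a : G) * QuotientGroup.mk a) ^ p * g⁻¹ = g * 1 * g⁻¹ := by
        rw [h6]; group
      exact mul_left_cancel (mul_right_cancel h8)
    · rw [map_mul, map_mul, map_inv, hψ]

/-- membership in the star class and failure in the sharp class, in all numbers of variables -/
theorem star_sharp {p : ℕ} {G : Type} [Group G] (Z : Subgroup G) (hZ : (Z : Set G).Finite)
    (h1 : ∀ x : G, x ∉ Z → {y : G | (x * y * x * y⁻¹) ^ p ≠ 1}.Finite)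
    (h2 : {s : G | (s * s) ^ p ≠ 1}.Infinite) (n : ℕ) (hn : 1 ≤ n) :
    (∀ S : Fin (n + 1) → Set G, (∀ i, (S i).Infinite) →
      ∃ s : Fin (n + 1) → G, (∀ i, s i ∈ S i) ∧ FreeGroup.lift s (word n p) = 1) ∧
    ¬ (∀ S : Fin (n + 1) → Set G, (∀ i, (S i).Infinite) →
      ∃ s : Fin (n + 1) → G, (∀ i, s i ∈ S i) ∧
        ∀ g : Fin (n + 1) → Subgroup.closure (Set.range s), FreeGroup.lift g (word n p) = 1) := by
  obtain ⟨m, rfl⟩ : ∃ m, n = m + 1 := ⟨n - 1, by omega⟩
  constructor
  · intro S hS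
    obtain ⟨x, hx, hxZ⟩ := (hS 0).exists_notMem_finite hZ
    choose t ht using fun i => (hS i).nonempty
    -- the last part of the product
    let r : G := (List.ofFn fun i : Fin m => t i.succ.succ).prod
    have hbad := h1 x hxZ
    have hbad' : {y : G | (x * (y * r) * x * (y * r)⁻¹) ^ p ≠ 1}.Finite := by
      refine (hbad.image fun y => y * r⁻¹).subset ?_
      intro y hy
      exact ⟨y * r, hy, by simp⟩
    obtain ⟨y, hy, hyb⟩ := (hS (Fin.succ 0)).exists_notMem_finite hbad'
    have hyb' : (x * (y * r) * x * (y * r)⁻¹) ^ p = 1 := by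
      by_contra hc
      exact hyb hc
    refine ⟨Fin.cons x (Fin.cons y fun i : Fin m => t i.succ.succ), ?_, ?_⟩
    · intro i
      refine Fin.cases ?_ (fun j => ?_) i
      · exact hx
      · refine Fin.cases ?_ (fun l => ?_) j
        · exact hy
        · exact ht _
    · rw [lift_word, List.ofFn_succ, List.prod_cons]
      simpa only [Fin.cons_zero, Fin.cons_succ] using hyb'
  · intro hsharp
    obtain ⟨x, hx, hlaw⟩ := hsharp (fun _ => {s : G | (s * s) ^ p ≠ 1}) (fun _ => h2)
    have h4 : x 0 ∈ Subgroup.closure (Set.range x) := Subgroup.subset_closure ⟨0, rfl⟩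
    have h5 := hlaw (Fin.cons ⟨x 0, h4⟩ fun _ => 1)
    rw [lift_word] at h5
    simp only [Fin.cons_zero, Fin.cons_succ, List.ofFn_const, List.prod_replicate, one_pow,
      mul_one, inv_one] at h5
    exact hx 0 (congrArg Subtype.val h5)

/-- every element of the free group on one letter is a power of the letter -/
theorem free_one (w : FreeGroup (Fin 1)) : ∃ k : ℤ, w = FreeGroup.of 0 ^ k := by
  have h : Subgroup.zpowers (FreeGroup.of (0 : Fin 1)) = ⊤ := by
    rw [eq_top_iff, ← FreeGroup.closure_range_of, Subgroup.closure_le]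
    rintro _ ⟨i, rfl⟩
    rw [Subsingleton.elim i 0]
    exact Subgroup.mem_zpowers _
  have h1 : w ∈ Subgroup.zpowers (FreeGroup.of (0 : Fin 1)) := by rw [h]; trivial
  obtain ⟨k, hk⟩ := h1
  exact ⟨k, hk.symm⟩

/-- in at most one variable a value `1` is a law of the group generated by the values -/
theorem law_one {n : ℕ} (hn : n ≤ 1) (w : FreeGroup (Fin n)) {G : Type*} [Group G]
    (s : Fin n → G) (hs : FreeGroup.lift s w = 1) :
    ∀ g : Fin n → Subgroup.closure (Set.range s), FreeGroup.lift g w = 1 := by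
  intro g
  rcases Nat.le_one_iff_eq_zero_or_eq_one.1 hn with rfl | rfl
  · rw [Subsingleton.elim w 1, map_one]
  · obtain ⟨k, rfl⟩ := free_one w
    rw [map_zpow, FreeGroup.lift_apply_of] at hs ⊢
    have h1 : Subgroup.closure (Set.range s) = Subgroup.zpowers (s 0) := by
      rw [Subgroup.zpowers_eq_closure]
      congr 1
      ext x
      constructor
      · rintro ⟨i, rfl⟩
        rw [Subsingleton.elim i 0]
        rfl
      · rintro rfl
        exact ⟨0, rfl⟩
    have h2 : (g 0 : G) ∈ Subgroup.zpowers (s 0) := by rw [← h1]; exact (g 0).2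
    obtain ⟨m, hm⟩ := h2
    simp only at hm
    apply Subtype.ext
    rw [Subgroup.coe_zpow, ← hm, ← zpow_mul, mul_comm, zpow_mul, hs, one_zpow]
    rfl

end Pool.Agent.H452.SHP
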